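import Pool.Agent.N287.WF.Stm

/-!
# WF/M4 (helper700): smooth selections and uniform discreteness of the stabilisers
-/

set_option autoImplicit false

namespace Pool.Agent.N700.WF

open scoped Topology ContDiff Manifold
open Set Filter Pool.Agent.N287.WF

universe u v w

theorem sel : SelStm.{u, v, w} := by
  intro E _ _ _ M _ _ _ W f φ ψ hsm h0 hadd hf hloc
  refine ⟨fun x₀ γ₀ hγ₀ => ?_, fun hM => ?_⟩
  · obtain ⟨U, hU, hxU, τ, hτ, hτ0, hUact, -⟩ := hloc x₀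
    have hg : ContMDiff 𝓘(ℝ, E) 𝓘(ℝ, E) ∞ (fun x => act φ ψ γ₀ x) :=
      hsm.comp ((contMDiff_const (c := γ₀)).prodMk contMDiff_id)
    have hev : ∀ᶠ x in 𝓝 x₀, act φ ψ γ₀ x ∈ U := by
      have hc : ContinuousAt (fun x => act φ ψ γ₀ x) x₀ := hg.continuous.continuousAt
      exact hc.eventually_mem (hU.mem_nhds (by show act φ ψ γ₀ x₀ ∈ U; rw [hγ₀]; exact hxU))
    refine ⟨fun x => γ₀ + (τ x - τ (act φ ψ γ₀ x)), ?_, ?_⟩
    · show γ₀ + (τ x₀ - τ (act φ ψ γ₀ x₀)) = γ₀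
      rw [hγ₀, sub_self, add_zero]
    · filter_upwards [hev, hU.mem_nhds hxU] with x hx1 hx2
      refine ⟨?_, ?_⟩
      · have h1 : ContMDiffAt 𝓘(ℝ, E) 𝓘(ℝ, ℝ × ℝ) ∞ τ x := hτ.contMDiffAt (hU.mem_nhds hx2)
        have h2 : ContMDiffAt 𝓘(ℝ, E) 𝓘(ℝ, ℝ × ℝ) ∞ (fun x => τ (act φ ψ γ₀ x)) x :=
          ContMDiffAt.comp x (hτ.contMDiffAt (hU.mem_nhds hx1)) (hg x)
        exact contMDiffAt_const.add (h1.sub h2)
      · show act φ ψ (γ₀ + (τ x - τ (act φ ψ γ₀ x))) x = x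
        rw [add_comm, hadd]
        exact hUact x hx2 _ hx1 (hf γ₀ x).symm
  · have key : ∃ ε > 0, ∀ x ∈ (univ : Set M), ∀ γ : ℝ × ℝ, act φ ψ γ x = x → ‖γ‖ < ε → γ = 0 := by
      refine IsCompact.induction_on (p := fun S : Set M => ∃ ε > 0, ∀ x ∈ S, ∀ γ : ℝ × ℝ,
        act φ ψ γ x = x → ‖γ‖ < ε → γ = 0) isCompact_univ ?_ ?_ ?_ ?_
      · exact ⟨1, one_pos, fun x hx => absurd hx (notMem_empty x)⟩
      · rintro s t hst ⟨ε, hε, h⟩
        exact ⟨ε, hε, fun x hx => h x (hst hx)⟩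
      · rintro s t ⟨ε, hε, h⟩ ⟨ε', hε', h'⟩
        refine ⟨min ε ε', lt_min hε hε', ?_⟩
        rintro x (hx | hx) γ hγ hn
        · exact h x hx γ hγ (hn.trans_le (min_le_left _ _))
        · exact h' x hx γ hγ (hn.trans_le (min_le_right _ _))
      · intro x₀ _
        obtain ⟨U, hU, hxU, τ, hτ, hτ0, hUact, ε, hε, hev⟩ := hloc x₀
        refine ⟨_, mem_nhdsWithin_of_mem_nhds hev, ε, hε, fun x hx γ hγ hn => ?_⟩
        have h1 := (hx γ hn).2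
        rw [hγ] at h1
        exact (left_eq_add.1 h1)
    obtain ⟨ε, hε, h⟩ := key
    exact ⟨ε, hε, fun x => h x (mem_univ x)⟩

end Pool.Agent.N700.WF
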